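import Pool.Agent.Results.MP_6dc561_nt.SignsOfTracesH24

/-!
# Large traces of Frobenius on abelian surfaces with Sato-Tate group `USp(4)`:
the optimal tail bounds

The setting is that of `SignsOfTracesH24` (this problem): `x v, y v` in `[-2, 2]` describe the class
`s(v)` in `USp(4)`, the normalized trace of Frobenius is `x v + y v`, and the mean values of the
irreducible characters of dimension `4, 5, 10, 14, 16` are `0`; this is known for all abelian surfaces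
with Sato-Tate group `USp(4)` over totally real fields (see there).

**Theorem.** For `c ≥ 3 / 2` the proportion of the places for which the absolute value of the
normalized trace is at least `c` is in the limit at most `min (1 / c ^ 2) (1 / ((2 c - 3) ^ 2 + 1))`.
For `7 / 4 ≤ c ≤ 4` this is optimal: there is a probability measure on the set of the conjugacy
classes with the same five mean values, for which the set of the classes with trace of absolute value
at least `c` has exactly this measure. For `c ≤ 2 + √(2 / 3) = 2.816...` the minimum is `1 / c ^ 2`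
(Chebyshev's inequality), for larger `c` it is the second number; for instance the absolute value is at
least `3.9` for at most `4.2` percent of the places (Chebyshev's inequality: `6.6` percent).

The mean value of the fourth power of the normalized trace is at most `9539 / 896 = 10.646...` (it is
`3` if the classes are equidistributed).
-/

open Filter Topology Finset

namespace Pool.Agent.Results.MP_6dc561_nt.LargeTracesH24

open Pool.Agent.Results.MP_6dc561_nt.SignsOfTracesH24 (chi4 chi5 chi10 chi14 chi16 KnownMeans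
  IsMeasure avg region)

open Classical in
/-- The proportion of the places with `c ≤ |x v + y v|` is at most `b` in the limit. -/
def AtMost {ι : Type} (P : ℕ → Finset ι) (x y : ι → ℝ) (c b : ℝ) : Prop :=
  ∀ ε : ℝ, 0 < ε → ∀ᶠ X in atTop, (#{v ∈ P X | c ≤ |x v + y v|} : ℝ) ≤ (b + ε) * #(P X)

/-- The tail bound. -/
noncomputable def tail (c : ℝ) : ℝ := min (1 / c ^ 2) (1 / ((2 * c - 3) ^ 2 + 1))

/-- The bounds for the large traces and for the fourth power. -/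
def Bounds {ι : Type} (P : ℕ → Finset ι) (x y : ι → ℝ) : Prop :=
  (∀ c, 3 / 2 ≤ c → AtMost P x y c (tail c)) ∧
  ∀ ε : ℝ, 0 < ε → ∀ᶠ X in atTop,
    ∑ v ∈ P X, (x v + y v) ^ 4 ≤ (9539 / 896 + ε) * #(P X)

open Classical in
/-- For `7 / 4 ≤ c ≤ 4` there is a measure for which the measure of the set of the classes with trace of
absolute value at least `c` is `tail c`. -/
def Optimal : Prop := ∀ c : ℝ, 7 / 4 ≤ c → c ≤ 4 → ∃ w x y : Fin 4 → ℝ, IsMeasure w x y ∧
  ∑ i with c ≤ |x i + y i|, w i = tail c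

section proof

lemma one_le {x y c : ℝ} (hc : 0 < c) :
    (if c ≤ |x + y| then (1 : ℝ) else 0) ≤ (x + y) ^ 2 / c ^ 2 := by
  split_ifs with h
  · rw [le_div_iff₀ (by positivity), one_mul, ← sq_abs (x + y)]
    exact pow_le_pow_left₀ hc.le h 2
  · positivity

lemma two_le {x y c : ℝ} (hx : |x| ≤ 2) (hy : |y| ≤ 2) (hc : 3 / 2 ≤ c) :
    (if c ≤ |x + y| then (1 : ℝ) else 0) ≤
      ((x * y + 1) * (2 * c - 3) + 1) ^ 2 / ((2 * c - 3) ^ 2 + 1) ^ 2 := by
  split_ifs with h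
  · rw [le_div_iff₀ (by positivity), one_mul]
    obtain ⟨h1, h2⟩ := region hx hy
    have h3 : |x + y| ≤ (x * y + 4) / 2 := abs_le'.2 ⟨h1, h2⟩
    have h4 : 2 * c - 3 ≤ x * y + 1 := by linarith
    refine pow_le_pow_left₀ (by positivity) ?_ 2
    nlinarith
  · positivity

lemma four_le {x y : ℝ} (hx : |x| ≤ 2) (hy : |y| ≤ 2) :
    (x + y) ^ 4 ≤ (139 / 4 - 14641 / 448) * (x + y) ^ 2 +
      14641 / 1792 * (x * y + 148 / 121) ^ 2 := by
  obtain ⟨h1, h2⟩ := region hx hy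
  have h3 : |x + y| ≤ (x * y + 4) / 2 := abs_le'.2 ⟨h1, h2⟩
  have h5 : (x * y + 4) / 2 ≤ 4 := by
    rw [abs_le] at hx hy
    nlinarith [hx.1, hx.2, hy.1, hy.2]
  obtain ⟨L, hL⟩ : ∃ L, L = (x * y + 4) / 2 := ⟨_, rfl⟩
  obtain ⟨s, hs⟩ : ∃ s, s = x + y := ⟨_, rfl⟩
  have hp : x * y = 2 * L - 4 := by linarith
  rw [← hL, ← hs] at h3
  rw [← hL] at h5
  rw [← hs, hp]
  have h0 : 0 ≤ L := (abs_nonneg _).trans h3
  have h6 : s ^ 2 ≤ L ^ 2 := by
    rw [← sq_abs s]; exact pow_le_pow_left₀ (abs_nonneg _) h3 2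
  have k1 : 0 ≤ 14641 / 1792 * (2 * L - 4 + 148 / 121) ^ 2 := by positivity
  rcases h0.eq_or_lt with h | h
  · have hs0 : s ^ 2 = 0 := le_antisymm (by rw [← h] at h6; simpa using h6) (sq_nonneg _)
    have : s ^ 4 = 0 := by
      have : s ^ 4 = (s ^ 2) ^ 2 := by ring
      rw [this, hs0]; norm_num
    rw [this, hs0]
    linarith
  have k2 : 0 ≤ (4 - L) * (L - 3 / 2) ^ 2 * (L + 7) :=
    mul_nonneg (mul_nonneg (by linarith) (sq_nonneg _)) (by linarith)
  have k3 : 0 ≤ s ^ 2 * (L ^ 2 - s ^ 2) * L ^ 2 :=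
    mul_nonneg (mul_nonneg (sq_nonneg _) (by linarith)) (sq_nonneg _)
  have e : L ^ 2 * ((139 / 4 - 14641 / 448) * s ^ 2 +
      14641 / 1792 * (2 * L - 4 + 148 / 121) ^ 2 - s ^ 4) =
      (L ^ 2 - s ^ 2) * (14641 / 1792 * (2 * L - 4 + 148 / 121) ^ 2) +
      s ^ 2 * ((4 - L) * (L - 3 / 2) ^ 2 * (L + 7)) + s ^ 2 * (L ^ 2 - s ^ 2) * L ^ 2 := by
    ring
  have k4 : 0 ≤ L ^ 2 * ((139 / 4 - 14641 / 448) * s ^ 2 +
      14641 / 1792 * (2 * L - 4 + 148 / 121) ^ 2 - s ^ 4) := by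
    rw [e]
    have m1 := mul_nonneg (sub_nonneg.2 h6) k1
    have m2 := mul_nonneg (sq_nonneg s) k2
    linarith
  have := nonneg_of_mul_nonneg_right k4 (by positivity)
  linarith

theorem bounds {ι : Type} {P : ℕ → Finset ι} {x y : ι → ℝ} (K : KnownMeans P x y) :
    Bounds P x y := by
  classical
  refine ⟨fun c hc ε hε => ?_, fun ε hε => ?_⟩
  · have hc0 : 0 < c := by linarith
    have hB : ((2 * c - 3) ^ 2 + 1 : ℝ) ≠ 0 := by positivity
    have k1 := avg K (-(1 / c ^ 2)) 0 (-(1 / c ^ 2)) (-(1 / c ^ 2)) 0 0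
      (fun v => -(if c ≤ |x v + y v| then (1 : ℝ) else 0)) (fun v => by
        refine le_of_eq_of_le ?_ (neg_le_neg (one_le hc0))
        unfold chi4 chi5 chi10 chi14 chi16
        ring) ε hε
    have k2 := avg K (-(1 / ((2 * c - 3) ^ 2 + 1))) 0
      (-(2 * (2 * c - 3) / ((2 * c - 3) ^ 2 + 1) ^ 2))
      (-((2 * c - 3) ^ 2 / ((2 * c - 3) ^ 2 + 1) ^ 2))
      (-((2 * c - 3) ^ 2 / ((2 * c - 3) ^ 2 + 1) ^ 2)) 0
      (fun v => -(if c ≤ |x v + y v| then (1 : ℝ) else 0)) (fun v => by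
        refine le_of_eq_of_le ?_ (neg_le_neg (two_le (K.x_le v) (K.y_le v) hc))
        unfold chi4 chi5 chi10 chi14 chi16
        field_simp
        ring) ε hε
    filter_upwards [k1, k2] with X h1 h2
    rw [sum_neg_distrib, Finset.sum_ite, sum_const_zero, add_zero, sum_const, nsmul_eq_mul,
      mul_one] at h1 h2
    unfold tail
    rcases min_choice (1 / c ^ 2) (1 / ((2 * c - 3) ^ 2 + 1)) with h | h
    · rw [h]; linarith
    · rw [h]; linarith
  · have k := avg K (-(9539 / 896)) 0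
      (-((139 / 4 - 14641 / 448) + 14641 / 1792 * (-2 + 296 / 121)))
      (-((139 / 4 - 14641 / 448) + 14641 / 1792)) (-(14641 / 1792)) 0
      (fun v => -(x v + y v) ^ 4) (fun v => by
        refine le_of_eq_of_le ?_ (neg_le_neg (four_le (K.x_le v) (K.y_le v)))
        unfold chi4 chi5 chi10 chi14 chi16
        ring) ε hε
    filter_upwards [k] with X h
    rw [sum_neg_distrib] at h
    linarith

lemma tail_small {c : ℝ} (h : 3 * c ^ 2 - 12 * c + 10 ≤ 0) :
    tail c = 1 / c ^ 2 := by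
  unfold tail
  refine min_eq_left (one_div_le_one_div_of_le (by positivity) (by nlinarith))

lemma tail_large {c : ℝ} (h0 : 7 / 4 ≤ c) (h : 0 ≤ 3 * c ^ 2 - 12 * c + 10) :
    tail c = 1 / ((2 * c - 3) ^ 2 + 1) := by
  unfold tail
  refine min_eq_right (one_div_le_one_div_of_le (pow_pos (by linarith) 2) (by nlinarith))

open Classical in
lemma sum_tail {w x y : Fin 4 → ℝ} {c b : ℝ} (h0 : c ≤ |x 0 + y 0|) (h1 : c ≤ |x 1 + y 1|)
    (h2 : |x 2 + y 2| < c) (h3 : |x 3 + y 3| < c) (hb : w 0 + w 1 = b) :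
    ∑ i with c ≤ |x i + y i|, w i = b := by
  rw [Finset.sum_filter, Fin.sum_univ_four, if_pos h0, if_pos h1, if_neg (not_le.2 h2),
    if_neg (not_le.2 h3), add_zero, add_zero, hb]

lemma small {c : ℝ} (h0 : 7 / 4 ≤ c) (h4 : c ≤ 4) (h : 3 * c ^ 2 - 12 * c + 10 ≤ 0) :
    ∃ w x y : Fin 4 → ℝ, IsMeasure w x y ∧ c ≤ |x 0 + y 0| ∧ c ≤ |x 1 + y 1| ∧
      |x 2 + y 2| < c ∧ |x 3 + y 3| < c ∧ w 0 + w 1 = 1 / c ^ 2 := by
  have hc0 : 0 < c := by linarith
  have hD : 0 < c ^ 2 - 1 := by nlinarith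
  have hD' := hD.ne'
  obtain ⟨u, hu'⟩ : ∃ u, u = 1 / c ^ 2 := ⟨_, rfl⟩
  have hu : u * c ^ 2 = 1 := by rw [hu']; field_simp
  have hu0 : 0 < u := by rw [hu']; positivity
  have hu1 : u ≤ 1 := by
    rw [hu', div_le_one (by positivity)]; linarith
  obtain ⟨P, hP⟩ : ∃ P, P = -((c ^ 2 + 2 * c - 4) / (c ^ 2 - 1)) := ⟨_, rfl⟩
  obtain ⟨V, hV⟩ : ∃ V, V = (-2 * c ^ 2 + 16 * c - 16) / (c ^ 2 - 1) - P ^ 2 := ⟨_, rfl⟩
  have r1 : (1 - u) * P = -(1 + u * (2 * c - 4)) := by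
    rw [hu', hP]; field_simp; ring
  have r2 : (1 - u) * (P ^ 2 + V) = 2 - u * (2 * c - 4) ^ 2 := by
    rw [hV, add_sub_cancel, hu']; field_simp; ring
  have hP0 : 0 ≤ -P := by
    rw [hP, neg_neg]; exact div_nonneg (by nlinarith) hD.le
  have hP2 : -P ≤ 2 := by
    rw [hP, neg_neg, div_le_iff₀ hD]; nlinarith [sq_nonneg (c - 1)]
  have e1 : V = (-(c ^ 2 * (3 * c ^ 2 - 12 * c + 10))) / (c ^ 2 - 1) ^ 2 := by
    rw [hV, hP]; field_simp; ring
  have e2 : P ^ 2 - V = (4 * c ^ 4 - 8 * c ^ 3 + 6 * c ^ 2 - 16 * c + 16) / (c ^ 2 - 1) ^ 2 := by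
    rw [hV, hP]; field_simp; ring
  have V0 : 0 ≤ V := by
    rw [e1]
    refine div_nonneg ?_ (sq_nonneg _)
    have := mul_nonneg (sq_nonneg c) (neg_nonneg.2 h)
    linarith
  have V1 : V ≤ (-P) ^ 2 := by
    have : 0 ≤ P ^ 2 - V := by
      rw [e2]
      refine div_nonneg ?_ (sq_nonneg _)
      obtain ⟨d, hd⟩ : ∃ d, d = c - 7 / 4 := ⟨_, rfl⟩
      have hd0 : 0 ≤ d := by linarith
      have hc : c = d + 7 / 4 := by linarith
      rw [hc]
      have : 4 * (d + 7 / 4) ^ 4 - 8 * (d + 7 / 4) ^ 3 + 6 * (d + 7 / 4) ^ 2 -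
          16 * (d + 7 / 4) + 16 = 4 * d ^ 4 + 20 * d ^ 3 + 75 / 2 * d ^ 2 + 69 / 4 * d + 65 / 64 := by
        ring
      rw [this]
      positivity
    rw [neg_sq]; linarith
  obtain ⟨σ, hσ'⟩ : ∃ σ, σ = √V := ⟨_, rfl⟩
  have hσ : σ ^ 2 = V := by rw [hσ', Real.sq_sqrt V0]
  have hσ0 : 0 ≤ σ := by rw [hσ']; exact Real.sqrt_nonneg _
  have hσ1 : σ ≤ -P := by rw [hσ', Real.sqrt_le_left hP0]; exact V1
  obtain ⟨z₁, hz₁'⟩ : ∃ z, z = √(-P - σ) := ⟨_, rfl⟩
  obtain ⟨z₂, hz₂'⟩ : ∃ z, z = √(-P + σ) := ⟨_, rfl⟩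
  have hz₁ : z₁ ^ 2 = -P - σ := by rw [hz₁', Real.sq_sqrt (by linarith)]
  have hz₂ : z₂ ^ 2 = -P + σ := by rw [hz₂', Real.sq_sqrt (by linarith)]
  have b₁ : |z₁| ≤ 2 := by
    rw [hz₁', abs_of_nonneg (Real.sqrt_nonneg _), Real.sqrt_le_left (by norm_num)]; linarith
  have b₂ : |z₂| ≤ 2 := by
    rw [hz₂', abs_of_nonneg (Real.sqrt_nonneg _), Real.sqrt_le_left (by norm_num)]; linarith
  refine ⟨![u / 2, u / 2, (1 - u) / 2, (1 - u) / 2], ![2, -2, z₁, z₂], ![c - 2, 2 - c, -z₁, -z₂],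
    ?_, ?_, ?_, ?_, ?_, ?_⟩
  · constructor
    · intro i
      fin_cases i <;> simp <;> linarith
    · simp [Fin.sum_univ_four]; ring
    · intro i
      fin_cases i
      · simp
      · simp
      · simpa using b₁
      · simpa using b₂
    · intro i
      fin_cases i
      · simp only [abs_le]; constructor <;> simp <;> linarith
      · simp only [abs_le]; constructor <;> simp <;> linarith
      · simpa using b₁
      · simpa using b₂
    · simp [Fin.sum_univ_four, chi4]; ring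
    · simp [Fin.sum_univ_four, chi5]
      linear_combination r1 - (1 - u) / 2 * hz₁ - (1 - u) / 2 * hz₂
    · simp [Fin.sum_univ_four, chi10]
      linear_combination hu - r1 + (1 - u) / 2 * hz₁ + (1 - u) / 2 * hz₂
    · simp [Fin.sum_univ_four, chi14]
      linear_combination r2 + 3 * r1 - hu + (1 - u) * hσ +
        (1 - u) / 2 * (z₁ ^ 2 - P - σ - 3) * hz₁ + (1 - u) / 2 * (z₂ ^ 2 - P + σ - 3) * hz₂
    · simp [Fin.sum_univ_four, chi16]; ring
  · simp [abs_of_pos hc0]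
  · have : (-2 : ℝ) + (2 - c) = -c := by ring
    simp [this, abs_of_pos hc0]
  · simpa using hc0
  · simpa using hc0
  · simp [← hu']

lemma large {B : ℝ} (h0 : 1 / 2 ≤ B) (h : 0 ≤ 3 * B ^ 2 - 6 * B - 5) (h5 : B ≤ 5) :
    ∃ w x y : Fin 4 → ℝ, IsMeasure w x y ∧ (B + 3) / 2 ≤ |x 0 + y 0| ∧
      (B + 3) / 2 ≤ |x 1 + y 1| ∧ |x 2 + y 2| < (B + 3) / 2 ∧ |x 3 + y 3| < (B + 3) / 2 ∧
      w 0 + w 1 = 1 / (B ^ 2 + 1) := by
  have hB2 : 2 ≤ B := by
    by_contra hcon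
    rw [not_le] at hcon
    nlinarith
  have hB0 : 0 < B := by linarith
  obtain ⟨q, hq'⟩ : ∃ q, q = 1 / B := ⟨_, rfl⟩
  have h1 : B * q = 1 := by rw [hq']; field_simp
  have hq0 : 0 < q := by rw [hq']; positivity
  have hq1 : q ≤ 1 / 2 := by rw [hq']; exact one_div_le_one_div_of_le (by norm_num) hB2
  obtain ⟨μ, hμ'⟩ : ∃ μ, μ = 1 / (B ^ 2 + 1) := ⟨_, rfl⟩
  have h2 : μ * (B ^ 2 + 1) = 1 := by
    rw [hμ']; field_simp
  have hμ0 : 0 < μ := by rw [hμ']; positivity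
  have hμ1 : μ ≤ 1 := by rw [hμ', div_le_one (by positivity)]; nlinarith
  obtain ⟨N, hN⟩ : ∃ N, N = (3 * B ^ 2 - 6 * B - 5) / 4 := ⟨_, rfl⟩
  have hN0 : 0 ≤ N := by rw [hN]; linarith
  obtain ⟨s, hs'⟩ : ∃ s, s = √(N * q ^ 2) := ⟨_, rfl⟩
  have f1 : s ^ 2 = N * q ^ 2 := by rw [hs', Real.sq_sqrt (by positivity)]
  have hs0 : 0 ≤ s := by rw [hs']; exact Real.sqrt_nonneg _
  have hs1 : s ≤ 1 := by
    rw [hs', Real.sqrt_le_left (by norm_num)]
    have : N * q ^ 2 ≤ B ^ 2 * q ^ 2 := by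
      refine mul_le_mul_of_nonneg_right ?_ (sq_nonneg _)
      rw [hN]; nlinarith
    have e : B ^ 2 * q ^ 2 = 1 := by rw [← mul_pow, h1, one_pow]
    linarith
  obtain ⟨P, hP⟩ : ∃ P, P = -1 - q := ⟨_, rfl⟩
  have hρ0 : 0 ≤ s ^ 2 - 4 * P := by rw [hP]; nlinarith [sq_nonneg s]
  obtain ⟨ρ, hρ'⟩ : ∃ ρ, ρ = √(s ^ 2 - 4 * P) := ⟨_, rfl⟩
  have f2 : ρ ^ 2 = s ^ 2 - 4 * P := by rw [hρ', Real.sq_sqrt hρ0]
  have hρp : 0 ≤ ρ := by rw [hρ']; exact Real.sqrt_nonneg _
  have hρ4 : ρ ≤ 4 - s := by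
    rw [hρ', Real.sqrt_le_left (by linarith), hP]; nlinarith
  have hsum : s ^ 2 = N * q ^ 2 := f1
  refine ⟨![μ / 2, μ / 2, (1 - μ) / 2, (1 - μ) / 2], ![2, -2, (s + ρ) / 2, (-s + ρ) / 2],
    ![(B - 1) / 2, -(B - 1) / 2, (s - ρ) / 2, (-s - ρ) / 2], ?_, ?_, ?_, ?_, ?_, ?_⟩
  · constructor
    · intro i
      fin_cases i <;> simp <;> linarith
    · simp [Fin.sum_univ_four]; ring
    · intro i
      fin_cases i
      · simp
      · simp
      · simp only [abs_le]; constructor <;> simp <;> linarith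
      · simp only [abs_le]; constructor <;> simp <;> linarith
    · intro i
      fin_cases i
      · simp only [abs_le]; constructor <;> simp <;> linarith
      · simp only [abs_le]; constructor <;> simp <;> linarith
      · simp only [abs_le]; constructor <;> simp <;> linarith
      · simp only [abs_le]; constructor <;> simp <;> linarith
    · simp [Fin.sum_univ_four, chi4]; ring
    · simp [Fin.sum_univ_four, chi5]
      rw [hP] at f2
      linear_combination q * h2 - μ * B * h1 - (1 - μ) / 4 * f2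
    · simp [Fin.sum_univ_four, chi10]
      rw [hP] at f2
      rw [hN] at f1
      linear_combination (1 - μ) / 4 * f2 + (1 - μ) * f1 -
        ((3 * B ^ 2 - 6 * B - 5) / 4 * q ^ 2 + q - 1) * h2 +
        μ * ((3 * B ^ 2 - 6 * B - 5) / 4 * (B * q + 1) + B) * h1
    · simp [Fin.sum_univ_four, chi14]
      rw [hP] at f2
      rw [hN] at f1
      linear_combination (1 - μ) * (-((s ^ 2 - ρ ^ 2) / 4 + (-1 - q)) / 4 - 3 / 4) * f2 -
        (1 - μ) * f1 - (q ^ 2 - q - (3 * B ^ 2 - 6 * B - 5) / 4 * q ^ 2) * h2 +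
        μ * ((1 - (3 * B ^ 2 - 6 * B - 5) / 4) * (B * q + 1) - B) * h1
    · simp [Fin.sum_univ_four, chi16]; ring
  · have : (2 : ℝ) + (B - 1) / 2 = (B + 3) / 2 := by ring
    simp [this, le_abs_self]
  · have : (-2 : ℝ) + -(B - 1) / 2 = -((B + 3) / 2) := by ring
    have h3 : (B + 3) / 2 ≤ |(-2 : ℝ) + -(B - 1) / 2| := by
      rw [this, abs_neg]; exact le_abs_self _
    simpa using h3
  · have : (s + ρ) / 2 + (s - ρ) / 2 = s := by ring
    have h3 : |(s + ρ) / 2 + (s - ρ) / 2| < (B + 3) / 2 := by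
      rw [this, abs_of_nonneg hs0]; linarith
    simpa using h3
  · have : (-s + ρ) / 2 + (-s - ρ) / 2 = -s := by ring
    have h3 : |(-s + ρ) / 2 + (-s - ρ) / 2| < (B + 3) / 2 := by
      rw [this, abs_neg, abs_of_nonneg hs0]; linarith
    simpa using h3
  · simp [← hμ']

theorem optimal : Optimal := by
  classical
  intro c h0 h4
  rcases le_total (3 * c ^ 2 - 12 * c + 10) 0 with h | h
  · obtain ⟨w, x, y, hm, k0, k1, k2, k3, k4⟩ := small h0 h4 h
    exact ⟨w, x, y, hm, sum_tail k0 k1 k2 k3 (by rw [k4, tail_small h])⟩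
  · have e : (2 * c - 3 + 3) / 2 = c := by ring
    obtain ⟨w, x, y, hm, k0, k1, k2, k3, k4⟩ := large (B := 2 * c - 3) (by linarith)
      (by nlinarith) (by linarith)
    rw [e] at k0 k1 k2 k3
    exact ⟨w, x, y, hm, sum_tail k0 k1 k2 k3 (by rw [k4, tail_large h0 h])⟩

end proof

/-- **The tail bounds, the bound for the fourth power, and the optimality of the tail bounds.** -/
theorem result :
    (∀ (ι : Type) (P : ℕ → Finset ι) (x y : ι → ℝ), KnownMeans P x y → Bounds P x y) ∧ Optimal :=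
  ⟨fun _ _ _ _ K => bounds K, optimal⟩

end Pool.Agent.Results.MP_6dc561_nt.LargeTracesH24
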