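import Mathlib

/-!
# Signs and sizes of the traces of Frobenius on abelian surfaces with Sato-Tate group `USp(4)`:
the optimal consequences of the known mean values

Let `A` be an abelian surface over a number field `F` with Sato-Tate group `USp(4)`, that is,
`End(A) = ℤ` over the algebraic closure of `F`. A conjugacy class of `USp(4)` is an unordered pair
`x, y` of numbers in `[-2, 2]`: the eigenvalues are `exp(± i θ₁), exp(± i θ₂)`, `x = 2 cos θ₁`,
`y = 2 cos θ₂`. The class `s(v)` belongs to the pair `x v, y v`, and `x v + y v` is the normalized trace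
of Frobenius.

Equidistribution means that the mean value of `χ(s(v))` is `0` for all irreducible characters
`χ ≠ 1` of `USp(4)`. This is known for the characters of dimension `4, 5, 10, 14, 16` if `F` is totally
real: the representations of dimension `4` and `5` (the second is `∧² ρ` without its invariant line)
are potentially automorphic (Boxer-Calegari-Gee-Pilloni; Kim's exterior square), and the other three
characters occur in the Rankin-Selberg products `4 ⊗ 4 = 1 + 5 + 10`, `4 ⊗ 5 = 4 + 16`,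
`5 ⊗ 5 = 1 + 10 + 14` (Jacquet and Shalika: no zeros on the line `Re s = 1`).

**Theorem.** Suppose that the five mean values are `0`, for any sequence of finite sets of places (for
instance `q_v ≤ X`, or only the places of this kind which split in a fixed way in a fixed abelian
extension of `F`).

* The trace is negative for a proportion of at least `(21 - 6 √6) / 100 = 0.0630...` of the places, and
  it is positive for a proportion of at least `(21 - 6 √6) / 100` of the places. The mean value of the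
  absolute value of the normalized trace is at least `(6 - √6) / 10 = 0.3550...`. These constants are
  optimal: there is a probability measure on the set of the conjugacy classes of `USp(4)` with the same
  five mean values for which all three quantities are equal to these constants.
* For `0 ≤ δ ≤ 2 / 3` the proportion of the places with normalized trace less than `-δ`, and the
  proportion of the places with normalized trace greater than `δ`, are at least
  `(2 - 3 δ) / (16 (4 - δ))`. For `1 / 5 ≤ δ ≤ 2 / 3` this is optimal (in the same sense). For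
  `0 ≤ δ ≤ 1 / 5` the proportions are also at least `(21 - 6 √6) / 100 - δ / 3`.

So better bounds need more mean values (the next character has dimension `20`).

Proof. With `s = x + y`, `p = x y` the five mean values are those of `s, s², p, p², s p`, and the set
of the classes is contained in `|s| ≤ (p + 4) / 2`. There is a polynomial `P` in the span of
`1, s, s², p, p², s p` with `P ≤ 0` for `s ≥ 0` and `P ≤ 1` for `s < 0` and mean value
`(21 - 6 √6) / 100`; for the second part use `(s + δ) (s - (p + 4) / 2) / (8 (4 - δ))`.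
-/

open Filter Topology Finset

namespace Pool.Agent.Results.MP_6dc561_nt.SignsOfTracesH24

/-- The irreducible character of `USp(4)` of dimension `4`, `x = 2 cos θ₁`, `y = 2 cos θ₂`. -/
def chi4 (x y : ℝ) : ℝ := x + y

/-- The irreducible character of dimension `5`. -/
def chi5 (x y : ℝ) : ℝ := x * y + 1

/-- The irreducible character of dimension `10`. -/
def chi10 (x y : ℝ) : ℝ := x ^ 2 + x * y + y ^ 2 - 2

/-- The irreducible character of dimension `14`. -/
def chi14 (x y : ℝ) : ℝ := x ^ 2 * y ^ 2 + x * y - x ^ 2 - y ^ 2 + 2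

/-- The irreducible character of dimension `16`. -/
def chi16 (x y : ℝ) : ℝ := (x + y) * (x * y)

/-- The mean value of `f` over the places in `P X` tends to `0`. -/
def MeanZero {ι : Type} (P : ℕ → Finset ι) (f : ι → ℝ) : Prop :=
  Tendsto (fun X => (∑ v ∈ P X, f v) / (#(P X) : ℝ)) atTop (𝓝 0)

/-- `x v, y v` is a conjugacy class of `USp(4)` for all `v`, and the mean values of the irreducible
characters of dimension `4, 5, 10, 14, 16` are `0`. -/
structure KnownMeans {ι : Type} (P : ℕ → Finset ι) (x y : ι → ℝ) : Prop where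
  x_le : ∀ v, |x v| ≤ 2
  y_le : ∀ v, |y v| ≤ 2
  m4 : MeanZero P fun v => chi4 (x v) (y v)
  m5 : MeanZero P fun v => chi5 (x v) (y v)
  m10 : MeanZero P fun v => chi10 (x v) (y v)
  m14 : MeanZero P fun v => chi14 (x v) (y v)
  m16 : MeanZero P fun v => chi16 (x v) (y v)

/-- The first constant. -/
noncomputable def signBound : ℝ := (21 - 6 * √6) / 100

/-- The second constant. -/
noncomputable def absBound : ℝ := (6 - √6) / 10

/-- The bound for the traces less than `-δ`, `1 / 5 ≤ δ ≤ 2 / 3`. -/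
noncomputable def farBound (δ : ℝ) : ℝ := (2 - 3 * δ) / (16 * (4 - δ))

open Classical in
/-- A proportion of at least `c` of the traces is less than `-δ`, and a proportion of at least `c` is
greater than `δ`. -/
def AtLeast {ι : Type} (P : ℕ → Finset ι) (x y : ι → ℝ) (δ c : ℝ) : Prop :=
  ∀ ε : ℝ, 0 < ε → ∀ᶠ X in atTop,
    (c - ε) * #(P X) ≤ #{v ∈ P X | x v + y v < -δ} ∧
    (c - ε) * #(P X) ≤ #{v ∈ P X | δ < x v + y v}

/-- The bounds for the traces less than `-δ` and greater than `δ` (for `δ = 0`: for the negative and the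
positive traces), and for the mean absolute value. -/
def Bounds {ι : Type} (P : ℕ → Finset ι) (x y : ι → ℝ) : Prop :=
  AtLeast P x y 0 signBound ∧ (∀ δ, 0 ≤ δ → δ ≤ 1 / 5 → AtLeast P x y δ (signBound - δ / 3)) ∧
  (∀ δ, 0 ≤ δ → δ ≤ 2 / 3 → AtLeast P x y δ (farBound δ)) ∧
  ∀ ε : ℝ, 0 < ε → ∀ᶠ X in atTop, (absBound - ε) * #(P X) ≤ ∑ v ∈ P X, |x v + y v|

/-- A probability measure on the set of the conjugacy classes, with finite support, for which the
mean values of the characters of dimension `4, 5, 10, 14, 16` are `0`. -/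
structure IsMeasure {κ : Type} [Fintype κ] (w x y : κ → ℝ) : Prop where
  nonneg : ∀ i, 0 ≤ w i
  sum : ∑ i, w i = 1
  x_le : ∀ i, |x i| ≤ 2
  y_le : ∀ i, |y i| ≤ 2
  m4 : ∑ i, w i * chi4 (x i) (y i) = 0
  m5 : ∑ i, w i * chi5 (x i) (y i) = 0
  m10 : ∑ i, w i * chi10 (x i) (y i) = 0
  m14 : ∑ i, w i * chi14 (x i) (y i) = 0
  m16 : ∑ i, w i * chi16 (x i) (y i) = 0

open Classical in
/-- There is a measure for which the three quantities are equal to the constants. -/
def Optimal : Prop := ∃ w x y : Fin 3 → ℝ, IsMeasure w x y ∧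
  ∑ i with x i + y i < 0, w i = signBound ∧ ∑ i with 0 < x i + y i, w i = signBound ∧
  ∑ i, w i * |x i + y i| = absBound

open Classical in
/-- For `1 / 5 ≤ δ ≤ 2 / 3` there is a measure for which the measure of the set of the traces less than
`-δ` is `farBound δ`. -/
def OptimalFar : Prop := ∀ δ : ℝ, 1 / 5 ≤ δ → δ ≤ 2 / 3 → ∃ w x y : Fin 4 → ℝ, IsMeasure w x y ∧
  ∑ i with x i + y i < -δ, w i = farBound δ

section proof

lemma avg {ι : Type} {P : ℕ → Finset ι} {x y : ι → ℝ} (K : KnownMeans P x y)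
    (c0 c4 c5 c10 c14 c16 : ℝ) (F : ι → ℝ)
    (hF : ∀ v, c0 + c4 * chi4 (x v) (y v) + c5 * chi5 (x v) (y v) + c10 * chi10 (x v) (y v) +
      c14 * chi14 (x v) (y v) + c16 * chi16 (x v) (y v) ≤ F v) (ε : ℝ) (hε : 0 < ε) :
    ∀ᶠ X in atTop, (c0 - ε) * #(P X) ≤ ∑ v ∈ P X, F v := by
  have h := ((((K.m4.const_mul c4).add (K.m5.const_mul c5)).add (K.m10.const_mul c10)).add
    (K.m14.const_mul c14)).add (K.m16.const_mul c16)
  simp only [mul_zero, add_zero] at h
  have h2 := h.eventually (lt_mem_nhds (show -ε < 0 by linarith))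
  filter_upwards [h2] with X hX
  rcases (P X).eq_empty_or_nonempty with he | hne
  · simp [he]
  have hc : (0 : ℝ) < #(P X) := by exact_mod_cast hne.card_pos
  have h3 : ∑ v ∈ P X, (c0 + c4 * chi4 (x v) (y v) + c5 * chi5 (x v) (y v) +
      c10 * chi10 (x v) (y v) + c14 * chi14 (x v) (y v) + c16 * chi16 (x v) (y v)) ≤
      ∑ v ∈ P X, F v := sum_le_sum fun v _ => hF v
  rw [sum_add_distrib, sum_add_distrib, sum_add_distrib, sum_add_distrib, sum_add_distrib,
    ← mul_sum, ← mul_sum, ← mul_sum, ← mul_sum, ← mul_sum, sum_const, nsmul_eq_mul] at h3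
  have h4 := mul_lt_mul_of_pos_left hX hc
  have e : ∀ c T : ℝ, (#(P X) : ℝ) * (c * (T / #(P X))) = c * T := by
    intro c T; field_simp
  rw [mul_add, mul_add, mul_add, mul_add, e, e, e, e, e] at h4
  nlinarith [h3, h4]

lemma sq6 : (√6 : ℝ) ^ 2 = 6 := Real.sq_sqrt (by norm_num)

lemma six_lo : (2.4 : ℝ) < √6 := by
  rw [Real.lt_sqrt (by norm_num)]; norm_num

lemma six_hi : (√6 : ℝ) < 2.5 := by
  rw [Real.sqrt_lt' (by norm_num)]; norm_num

lemma region {x y : ℝ} (hx : |x| ≤ 2) (hy : |y| ≤ 2) :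
    x + y ≤ (x * y + 4) / 2 ∧ -(x + y) ≤ (x * y + 4) / 2 := by
  rw [abs_le] at hx hy
  constructor
  · nlinarith [mul_nonneg (sub_nonneg.2 hx.2) (sub_nonneg.2 hy.2)]
  · nlinarith [mul_nonneg (by linarith [hx.1] : 0 ≤ x + 2) (by linarith [hy.1] : 0 ≤ y + 2)]

/-- A quadratic polynomial in `u` with positive leading coefficient is at most zero between `0` and
`L` if it is so at `0` and at `L`. -/
lemma convex_le {A B g L u : ℝ} (hg : 0 ≤ g) (hu : 0 ≤ u) (huL : u ≤ L) (h0 : A ≤ 0)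
    (h1 : A + B * L + g * L ^ 2 ≤ 0) : A + B * u + g * u ^ 2 ≤ 0 := by
  rcases (hu.trans huL).eq_or_lt with h | h
  · have hu0 : u = 0 := le_antisymm (huL.trans h.ge) hu
    subst hu0
    simpa using h0
  have e : L * (A + B * u + g * u ^ 2) =
      (L - u) * A + u * (A + B * L + g * L ^ 2) - g * (u * (L - u) * L) := by ring
  have h2 : L * (A + B * u + g * u ^ 2) ≤ 0 := by
    rw [e]
    have k1 : (L - u) * A ≤ 0 := mul_nonpos_of_nonneg_of_nonpos (by linarith) h0
    have k2 : u * (A + B * L + g * L ^ 2) ≤ 0 := mul_nonpos_of_nonneg_of_nonpos hu h1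
    have k3 : 0 ≤ g * (u * (L - u) * L) :=
      mul_nonneg hg (mul_nonneg (mul_nonneg hu (by linarith)) h.le)
    linarith
  by_contra hcon
  rw [not_le] at hcon
  have := mul_pos h hcon
  linarith

/-- The polynomial `P`. -/
noncomputable def poly (s p : ℝ) : ℝ :=
  -(13 + 7 * √6) / 250 - (9 + √6) / 50 * s + (16 - √6) / 100 * s ^ 2 - (29 + 6 * √6) / 250 * p -
    (23 * √6 + 7) / 1000 * p ^ 2 + (21 - 6 * √6) / 200 * (s * p)

lemma poly_nonneg_side {s p : ℝ} (hs : 0 ≤ s) (hL : s ≤ (p + 4) / 2) : poly s p ≤ 0 := by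
  have h6 := sq6
  have hlo := six_lo
  have hhi := six_hi
  have h := convex_le (A := -((23 * √6 + 7) / 1000) * (p + (2 + 2 * √6) / 5) ^ 2)
    (B := -(9 + √6) / 50 + (21 - 6 * √6) / 200 * p) (g := (16 - √6) / 100) (L := (p + 4) / 2)
    (u := s) (by linarith) hs hL ?_ ?_
  · refine le_of_eq_of_le ?_ h
    unfold poly
    linear_combination (53 / 6250 + 23 / 6250 * √6 + 23 / 1250 * p) * h6
  · have : 0 ≤ (23 * √6 + 7) / 1000 * (p + (2 + 2 * √6) / 5) ^ 2 :=
      mul_nonneg (by linarith) (sq_nonneg _)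
    linarith
  · have : 0 ≤ (81 * √6 - 171) / 2000 * (p - 2 * √6 / 3) ^ 2 :=
      mul_nonneg (by linarith) (sq_nonneg _)
    nlinarith [this, h6]

lemma poly_neg_side {s p : ℝ} (hs : s ≤ 0) (hL : -s ≤ (p + 4) / 2) : poly s p ≤ 1 := by
  have h6 := sq6
  have hlo := six_lo
  have hhi := six_hi
  have h := convex_le (A := -((23 * √6 + 7) / 1000) * (p + (2 + 2 * √6) / 5) ^ 2 - 1)
    (B := (9 + √6) / 50 - (21 - 6 * √6) / 200 * p) (g := (16 - √6) / 100) (L := (p + 4) / 2)
    (u := -s) (by linarith) (by linarith) hL ?_ ?_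
  · refine le_of_sub_nonpos (le_of_eq_of_le ?_ h)
    unfold poly
    linear_combination (53 / 6250 + 23 / 6250 * √6 + 23 / 1250 * p) * h6
  · have : 0 ≤ (23 * √6 + 7) / 1000 * (p + (2 + 2 * √6) / 5) ^ 2 :=
      mul_nonneg (by linarith) (sq_nonneg _)
    linarith
  · have : 0 ≤ (39 + 21 * √6) / 2000 * (p - 2 * √6 / 3) ^ 2 :=
      mul_nonneg (by linarith) (sq_nonneg _)
    nlinarith [this, h6]

/-- The polynomial for the absolute value. -/
noncomputable def poly2 (s p : ℝ) : ℝ :=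
  (36 - √6) / 60 * s ^ 2 - (29 * √6 + 36) / 600 * p ^ 2 - (42 + 13 * √6) / 150 * p -
    (24 + 11 * √6) / 150

lemma poly2_le {s p : ℝ} (h1 : s ≤ (p + 4) / 2) (h2 : -s ≤ (p + 4) / 2) :
    poly2 s p ≤ |s| := by
  have h6 := sq6
  have hlo := six_lo
  have hhi := six_hi
  have h := convex_le (A := -((29 * √6 + 36) / 600) * (p + (2 + 2 * √6) / 5) ^ 2)
    (B := -1) (g := (36 - √6) / 60) (L := (p + 4) / 2)
    (u := |s|) (by linarith) (abs_nonneg s) (abs_le'.2 ⟨h1, h2⟩) ?_ ?_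
  · refine le_of_sub_nonpos (le_of_eq_of_le ?_ h)
    unfold poly2
    rw [sq_abs]
    linear_combination (47 / 1875 + 29 / 3750 * √6 + 29 / 750 * p) * h6
  · have : 0 ≤ (29 * √6 + 36) / 600 * (p + (2 + 2 * √6) / 5) ^ 2 :=
      mul_nonneg (by linarith) (sq_nonneg _)
    linarith
  · have : 0 ≤ (21 * √6 - 36) / 400 * (p - 2 * √6 / 3) ^ 2 :=
      mul_nonneg (by linarith) (sq_nonneg _)
    nlinarith [this, h6]

/-- The polynomial is small if `s` is small. -/
lemma poly_small {s p δ : ℝ} (hs : s ≤ 0) (h : -δ ≤ s) (h1 : δ ≤ 1 / 5) :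
    poly s p ≤ δ / 3 := by
  have h6 := sq6
  have hlo := six_lo
  have hhi := six_hi
  have e : poly s p = -((23 * √6 + 7) / 1000 * (p + (2 + 2 * √6) / 5) ^ 2) +
      -s * ((3 + √6) / 20 - (21 - 6 * √6) / 200 * (p + (2 + 2 * √6) / 5) +
        (16 - √6) / 100 * (-s)) := by
    unfold poly
    linear_combination (53 / 6250 + 23 / 6250 * √6 + 23 / 1250 * p) * h6 + (s * 3 / 250) * h6
  obtain ⟨q, hq⟩ : ∃ q, q = p + (2 + 2 * √6) / 5 := ⟨_, rfl⟩
  obtain ⟨u, hu⟩ : ∃ u, u = -s := ⟨_, rfl⟩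
  obtain ⟨z, hz⟩ : ∃ z, z = (21 - 6 * √6) / 200 := ⟨_, rfl⟩
  rw [← hq, ← hu, ← hz] at e
  have hu0 : 0 ≤ u := by linarith
  have hu1 : u ≤ 1 / 5 := by linarith
  have hz0 : 0 ≤ z := by linarith
  have hz1 : z ≤ 1 / 20 := by linarith
  have a1 : 6 / 100 * q ^ 2 ≤ (23 * √6 + 7) / 1000 * q ^ 2 :=
    mul_le_mul_of_nonneg_right (by linarith) (sq_nonneg _)
  have a2 : 0 ≤ 6 / 100 * (q + z * u * (100 / 12)) ^ 2 := by positivity
  have a3 : z ^ 2 * u ^ 2 ≤ 1 / 400 * (u * (1 / 5)) := by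
    refine mul_le_mul (by nlinarith) (by nlinarith) (sq_nonneg _) (by norm_num)
  have a4 : u * ((3 + √6) / 20 + (16 - √6) / 100 * u) ≤ u * (31 / 100) := by
    refine mul_le_mul_of_nonneg_left ?_ hu0
    have : (16 - √6) / 100 * u ≤ (16 - √6) / 100 * (1 / 5) :=
      mul_le_mul_of_nonneg_left hu1 (by linarith)
    linarith
  rw [e]
  nlinarith [a1, a2, a3, a4]

lemma poly_neg_side' {x y δ : ℝ} (hx : |x| ≤ 2) (hy : |y| ≤ 2) (h0 : 0 ≤ δ) (h1 : δ ≤ 1 / 5) :
    poly (x + y) (x * y) - δ / 3 ≤ if x + y < -δ then 1 else 0 := by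
  obtain ⟨h2, h3⟩ := region hx hy
  split_ifs with h
  · linarith [poly_neg_side (by linarith : x + y ≤ 0) h3]
  · rcases le_total 0 (x + y) with h4 | h4
    · linarith [poly_nonneg_side h4 h2]
    · linarith [poly_small (p := x * y) h4 (not_lt.1 h) h1]

lemma poly_pos_side' {x y δ : ℝ} (hx : |x| ≤ 2) (hy : |y| ≤ 2) (h0 : 0 ≤ δ) (h1 : δ ≤ 1 / 5) :
    poly (-(x + y)) (x * y) - δ / 3 ≤ if δ < x + y then 1 else 0 := by
  have h := poly_neg_side' (x := -x) (y := -y) (δ := δ) (by rwa [abs_neg]) (by rwa [abs_neg]) h0 h1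
  rw [neg_mul_neg, ← neg_add] at h
  refine h.trans (le_of_eq ?_)
  congr 1
  exact propext neg_lt_neg_iff

theorem near {ι : Type} {P : ℕ → Finset ι} {x y : ι → ℝ} (K : KnownMeans P x y) {δ : ℝ}
    (hδ0 : 0 ≤ δ) (hδ1 : δ ≤ 1 / 5) : AtLeast P x y δ (signBound - δ / 3) := by
  classical
  intro ε hε
  have k1 := avg K (signBound - δ / 3) (-(9 + √6) / 50)
    ((16 - √6) / 100 - (29 + 6 * √6) / 250 + 2 * ((23 * √6 + 7) / 1000))
    ((16 - √6) / 100 - (23 * √6 + 7) / 1000) (-((23 * √6 + 7) / 1000)) ((21 - 6 * √6) / 200)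
    (fun v => if x v + y v < -δ then 1 else 0) (fun v => by
      refine le_of_eq_of_le ?_ (poly_neg_side' (K.x_le v) (K.y_le v) hδ0 hδ1)
      unfold poly chi4 chi5 chi10 chi14 chi16 signBound
      ring) ε hε
  have k2 := avg K (signBound - δ / 3) ((9 + √6) / 50)
    ((16 - √6) / 100 - (29 + 6 * √6) / 250 + 2 * ((23 * √6 + 7) / 1000))
    ((16 - √6) / 100 - (23 * √6 + 7) / 1000) (-((23 * √6 + 7) / 1000)) (-((21 - 6 * √6) / 200))
    (fun v => if δ < x v + y v then 1 else 0) (fun v => by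
      refine le_of_eq_of_le ?_ (poly_pos_side' (K.x_le v) (K.y_le v) hδ0 hδ1)
      unfold poly chi4 chi5 chi10 chi14 chi16 signBound
      ring) ε hε
  filter_upwards [k1, k2] with X h1 h2
  refine ⟨?_, ?_⟩
  · rw [Finset.sum_ite, sum_const_zero, add_zero, sum_const, nsmul_eq_mul, mul_one] at h1
    exact h1
  · rw [Finset.sum_ite, sum_const_zero, add_zero, sum_const, nsmul_eq_mul, mul_one] at h2
    exact h2

lemma far_neg {x y δ : ℝ} (hx : |x| ≤ 2) (hy : |y| ≤ 2) (h1 : δ ≤ 2 / 3) :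
    -(((x + y) + δ) * ((x * y + 4) / 2 - (x + y))) / (8 * (4 - δ)) ≤
      if x + y < -δ then 1 else 0 := by
  obtain ⟨h2, h3⟩ := region hx hy
  have hD : (0 : ℝ) < 8 * (4 - δ) := by linarith
  rw [abs_le] at hx hy
  split_ifs with h
  · rw [div_le_one hD]
    have k1 : 0 ≤ -(x + y) - δ := by linarith
    have k2 : -(x + y) - δ ≤ 4 - δ := by linarith [hx.1, hy.1]
    have k3 : x * y ≤ 4 := by nlinarith [hx.1, hx.2, hy.1, hy.2]
    have k4 : (x * y + 4) / 2 - (x + y) ≤ 8 := by linarith [hx.1, hy.1]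
    have k5 : 0 ≤ (x * y + 4) / 2 - (x + y) := by linarith
    have := mul_le_mul k2 k4 k5 (by linarith)
    linarith
  · refine div_nonpos_of_nonpos_of_nonneg ?_ hD.le
    have := mul_nonneg (by linarith : 0 ≤ (x + y) + δ) (by linarith :
      0 ≤ (x * y + 4) / 2 - (x + y))
    linarith

lemma far_pos {x y δ : ℝ} (hx : |x| ≤ 2) (hy : |y| ≤ 2) (h1 : δ ≤ 2 / 3) :
    -((-(x + y) + δ) * ((x * y + 4) / 2 + (x + y))) / (8 * (4 - δ)) ≤
      if δ < x + y then 1 else 0 := by
  have h := far_neg (x := -x) (y := -y) (δ := δ) (by rwa [abs_neg]) (by rwa [abs_neg]) h1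
  rw [neg_mul_neg, ← neg_add, sub_neg_eq_add] at h
  refine h.trans (le_of_eq ?_)
  congr 1
  exact propext neg_lt_neg_iff

theorem far {ι : Type} {P : ℕ → Finset ι} {x y : ι → ℝ} (K : KnownMeans P x y) {δ : ℝ}
    (hδ1 : δ ≤ 2 / 3) : AtLeast P x y δ (farBound δ) := by
  classical
  intro ε hε
  have hD : (4 - δ) ≠ 0 := by linarith
  have k1 := avg K (farBound δ) (-(2 - δ) / (8 * (4 - δ))) ((1 - δ / 2) / (8 * (4 - δ)))
    (1 / (8 * (4 - δ))) 0 (-(1 / 2) / (8 * (4 - δ)))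
    (fun v => if x v + y v < -δ then 1 else 0) (fun v => by
      refine le_of_eq_of_le ?_ (far_neg (K.x_le v) (K.y_le v) hδ1)
      unfold chi4 chi5 chi10 chi14 chi16 farBound
      field_simp
      ring) ε hε
  have k2 := avg K (farBound δ) ((2 - δ) / (8 * (4 - δ))) ((1 - δ / 2) / (8 * (4 - δ)))
    (1 / (8 * (4 - δ))) 0 ((1 / 2) / (8 * (4 - δ)))
    (fun v => if δ < x v + y v then 1 else 0) (fun v => by
      refine le_of_eq_of_le ?_ (far_pos (K.x_le v) (K.y_le v) hδ1)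
      unfold chi4 chi5 chi10 chi14 chi16 farBound
      field_simp
      ring) ε hε
  filter_upwards [k1, k2] with X h1 h2
  refine ⟨?_, ?_⟩
  · rw [Finset.sum_ite, sum_const_zero, add_zero, sum_const, nsmul_eq_mul, mul_one] at h1
    exact h1
  · rw [Finset.sum_ite, sum_const_zero, add_zero, sum_const, nsmul_eq_mul, mul_one] at h2
    exact h2

theorem bounds {ι : Type} {P : ℕ → Finset ι} {x y : ι → ℝ} (K : KnownMeans P x y) :
    Bounds P x y := by
  refine ⟨?_, fun δ h0 h1 => near K h0 h1, fun δ _ h1 => far K h1, fun ε hε => ?_⟩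
  · have := near K le_rfl (by norm_num : (0 : ℝ) ≤ 1 / 5)
    rwa [zero_div, sub_zero] at this
  exact avg K absBound 0
    ((36 - √6) / 60 - (42 + 13 * √6) / 150 + 2 * ((29 * √6 + 36) / 600))
    ((36 - √6) / 60 - (29 * √6 + 36) / 600) (-((29 * √6 + 36) / 600)) 0
    (fun v => |x v + y v|) (fun v => by
      obtain ⟨h1, h2⟩ := region (K.x_le v) (K.y_le v)
      refine le_of_eq_of_le ?_ (poly2_le h1 h2)
      unfold poly2 chi4 chi5 chi10 chi14 chi16 absBound
      ring) ε hε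

theorem optimal : Optimal := by
  classical
  have h6 := sq6
  have hlo := six_lo
  have hhi := six_hi
  set r := √6 with hr
  have hz0 : (0 : ℝ) ≤ (2 + 2 * r) / 5 := by linarith
  set z := √((2 + 2 * r) / 5) with hz
  have hz2 : z ^ 2 = (2 + 2 * r) / 5 := Real.sq_sqrt hz0
  have hzle : |z| ≤ 2 := by
    rw [abs_le]
    constructor <;> nlinarith [hz2]
  refine ⟨![(21 - 6 * r) / 100, (21 - 6 * r) / 100, (29 + 6 * r) / 50], ![-2, 2, z],
    ![-r / 3, r / 3, -z], ?_, ?_, ?_, ?_⟩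
  · constructor
    · intro i
      fin_cases i <;> simp <;> linarith
    · simp [Fin.sum_univ_three]; ring
    · intro i
      fin_cases i <;> simp [hzle]
    · intro i
      fin_cases i
      · simp only [abs_le]; constructor <;> simp <;> linarith
      · simp only [abs_le]; constructor <;> simp <;> linarith
      · simpa using hzle
    · simp [Fin.sum_univ_three, chi4]; ring
    · simp [Fin.sum_univ_three, chi5]
      linear_combination (-(29 + 6 * r) / 50) * hz2 + (-16 / 125 : ℝ) * h6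
    · simp [Fin.sum_univ_three, chi10]
      linear_combination ((29 + 6 * r) / 50) * hz2 + (11 / 750 - r / 75) * h6
    · simp [Fin.sum_univ_three, chi14]
      linear_combination ((29 + 6 * r) / 50 * (z ^ 2 + (2 + 2 * r) / 5 - 3)) * hz2 +
        ((59 - 26 * r) / 1250) * h6
    · simp [Fin.sum_univ_three, chi16]; ring
  · have h0 : (![-2, 2, z] : Fin 3 → ℝ) 0 + (![-r / 3, r / 3, -z] : Fin 3 → ℝ) 0 < 0 := by
      simp; linarith
    have h1 : ¬ (![-2, 2, z] : Fin 3 → ℝ) 1 + (![-r / 3, r / 3, -z] : Fin 3 → ℝ) 1 < 0 := by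
      simp; linarith
    have h2 : ¬ (![-2, 2, z] : Fin 3 → ℝ) 2 + (![-r / 3, r / 3, -z] : Fin 3 → ℝ) 2 < 0 := by
      simp
    rw [Finset.sum_filter, Fin.sum_univ_three, if_pos h0, if_neg h1, if_neg h2]
    simp [signBound, hr]
  · have h0 : ¬ 0 < (![-2, 2, z] : Fin 3 → ℝ) 0 + (![-r / 3, r / 3, -z] : Fin 3 → ℝ) 0 := by
      simp; linarith
    have h1 : 0 < (![-2, 2, z] : Fin 3 → ℝ) 1 + (![-r / 3, r / 3, -z] : Fin 3 → ℝ) 1 := by
      simp; linarith
    have h2 : ¬ 0 < (![-2, 2, z] : Fin 3 → ℝ) 2 + (![-r / 3, r / 3, -z] : Fin 3 → ℝ) 2 := by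
      simp
    rw [Finset.sum_filter, Fin.sum_univ_three, if_neg h0, if_pos h1, if_neg h2]
    simp [signBound, hr]
  · simp [Fin.sum_univ_three, absBound]
    rw [abs_of_neg (by linarith : -2 + -r / 3 < 0), abs_of_pos (by linarith : 0 < 2 + r / 3)]
    linear_combination (-1 / 25 : ℝ) * h6

theorem optimal_far : OptimalFar := by
  classical
  intro δ h0 h1
  have hD : 0 < 4 - δ := by linarith
  have hE : 0 < 12 + 17 * δ := by linarith
  obtain ⟨f, hf⟩ : ∃ f, f = (2 - 3 * δ) / (16 * (4 - δ)) := ⟨_, rfl⟩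
  obtain ⟨m, hm⟩ : ∃ m, m = 50 / ((4 - δ) * (12 + 17 * δ)) := ⟨_, rfl⟩
  have g6 : 16 * f * (4 - δ) = 2 - 3 * δ := by rw [hf]; field_simp
  have g7 : m * (4 - δ) * (12 + 17 * δ) = 50 := by rw [hm]; field_simp
  have g5 : 16 * f + m * (12 + 17 * δ) / 5 = 3 := by
    rw [hf, hm]; field_simp; ring
  have hf0 : 0 ≤ f := by rw [hf]; exact div_nonneg (by linarith) (by linarith)
  have hm0 : 0 < m := by rw [hm]; positivity
  have hK : 0 < 16 * (4 - δ) * (12 + 17 * δ) := by positivity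
  obtain ⟨n, hn⟩ : ∃ n, n = 1 - f - m := ⟨_, rfl⟩
  have e1 : f + m + n = 1 := by rw [hn]; ring
  have nK : n = (-56 + 898 * δ - 221 * δ ^ 2) / (16 * (4 - δ) * (12 + 17 * δ)) := by
    rw [hn, hf, hm]; field_simp; ring
  have R1K : 4 * f + δ * m = (96 + 792 * δ - 204 * δ ^ 2) / (16 * (4 - δ) * (12 + 17 * δ)) := by
    rw [hf, hm]; field_simp; ring
  have R2K : 1 - 16 * f - δ ^ 2 * m =
      (384 + 928 * δ - 256 * δ ^ 2) / (16 * (4 - δ) * (12 + 17 * δ)) := by
    rw [hf, hm]; field_simp; ring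
  have hν : 0 < -56 + 898 * δ - 221 * δ ^ 2 := by nlinarith
  have hn0 : 0 < n := by rw [nK]; exact div_pos hν hK
  obtain ⟨c, hc⟩ : ∃ c, c = (96 + 792 * δ - 204 * δ ^ 2) / (-56 + 898 * δ - 221 * δ ^ 2) :=
    ⟨_, rfl⟩
  obtain ⟨V, hV⟩ : ∃ V, V = (384 + 928 * δ - 256 * δ ^ 2) / (-56 + 898 * δ - 221 * δ ^ 2) -
    c ^ 2 := ⟨_, rfl⟩
  have hν' := hν.ne'
  have e2 : n * c = 4 * f + δ * m := by
    rw [R1K, nK, hc, div_mul_div_comm, mul_comm (16 * (4 - δ) * (12 + 17 * δ)),
      mul_div_mul_left _ _ hν']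
  have e3 : n * (c ^ 2 + V) = 1 - 16 * f - δ ^ 2 * m := by
    rw [R2K, nK, hV, add_sub_cancel, div_mul_div_comm,
      mul_comm (16 * (4 - δ) * (12 + 17 * δ)), mul_div_mul_left _ _ hν']
  have hc1 : 1 ≤ c := by
    rw [hc, le_div_iff₀ hν]; nlinarith
  have hc3 : c ≤ 3 := by
    rw [hc, div_le_iff₀ hν]; nlinarith
  have V0 : 0 ≤ V := by
    rw [hV, hc, sub_nonneg, div_pow, div_le_div_iff₀ (by positivity) hν]
    have : 0 ≤ (-30720 + 140800 * δ + 174720 * δ ^ 2 - 111840 * δ ^ 3 + 14960 * δ ^ 4) *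
        (-56 + 898 * δ - 221 * δ ^ 2) := by
      refine mul_nonneg ?_ hν.le
      have k1 : δ ^ 3 ≤ 2 / 3 * δ ^ 2 := by nlinarith [sq_nonneg δ]
      have k2 : 0 ≤ δ ^ 4 := by positivity
      nlinarith
    linarith
  have V1 : V ≤ 1 := by
    have k1 : δ ^ 3 ≤ 2 / 3 * δ ^ 2 := by nlinarith [sq_nonneg δ]
    have k2 : 0 ≤ δ ^ 4 := by positivity
    have k3 : 0 ≤ (-56 + 898 * δ - 221 * δ ^ 2) ^ 2 -
        (384 + 928 * δ - 256 * δ ^ 2) * (-56 + 898 * δ - 221 * δ ^ 2) +
        (96 + 792 * δ - 204 * δ ^ 2) ^ 2 := by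
      have e : (-56 + 898 * δ - 221 * δ ^ 2) ^ 2 -
        (384 + 928 * δ - 256 * δ ^ 2) * (-56 + 898 * δ - 221 * δ ^ 2) +
        (96 + 792 * δ - 204 * δ ^ 2) ^ 2 = 33856 - 241376 * δ + 656436 * δ ^ 2 -
        285076 * δ ^ 3 + 33881 * δ ^ 4 := by ring
      rw [e]
      nlinarith [sq_nonneg (δ - 1 / 4)]
    have e : 1 - V = ((-56 + 898 * δ - 221 * δ ^ 2) ^ 2 -
        (384 + 928 * δ - 256 * δ ^ 2) * (-56 + 898 * δ - 221 * δ ^ 2) +
        (96 + 792 * δ - 204 * δ ^ 2) ^ 2) / (-56 + 898 * δ - 221 * δ ^ 2) ^ 2 := by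
      rw [eq_div_iff (pow_ne_zero 2 hν'), hV, hc, div_pow]
      have k0 : ∀ a N : ℝ, N ≠ 0 → a / N * N ^ 2 = a * N := by
        intro a N hN
        field_simp
      have k4 := k0 (384 + 928 * δ - 256 * δ ^ 2) (-56 + 898 * δ - 221 * δ ^ 2) hν'
      have k5 : (96 + 792 * δ - 204 * δ ^ 2) ^ 2 / (-56 + 898 * δ - 221 * δ ^ 2) ^ 2 *
          (-56 + 898 * δ - 221 * δ ^ 2) ^ 2 = (96 + 792 * δ - 204 * δ ^ 2) ^ 2 :=
        div_mul_cancel₀ _ (pow_ne_zero 2 hν')
      linear_combination -k4 + k5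
    have := div_nonneg k3 (sq_nonneg (-56 + 898 * δ - 221 * δ ^ 2))
    linarith
  obtain ⟨σ, hσ⟩ : ∃ σ, σ = √V := ⟨_, rfl⟩
  have hσ2 : σ ^ 2 = V := by rw [hσ, Real.sq_sqrt V0]
  have hσ0 : 0 ≤ σ := by rw [hσ]; exact Real.sqrt_nonneg _
  have hσ1 : σ ≤ 1 := by rw [hσ, Real.sqrt_le_left (by norm_num)]; linarith
  have hρ0 : 0 ≤ δ ^ 2 + 4 * (8 - 7 * δ) / 5 := by nlinarith
  obtain ⟨ρ, hρ⟩ : ∃ ρ, ρ = √(δ ^ 2 + 4 * (8 - 7 * δ) / 5) := ⟨_, rfl⟩
  have hρ2 : ρ ^ 2 = δ ^ 2 + 4 * (8 - 7 * δ) / 5 := by rw [hρ, Real.sq_sqrt hρ0]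
  have hρp : 0 ≤ ρ := by rw [hρ]; exact Real.sqrt_nonneg _
  have hρ4 : ρ ≤ 4 - δ := by
    refine abs_le_of_sq_le_sq' ?_ (by linarith) |>.2
    rw [hρ2]; nlinarith
  refine ⟨![f, m, n / 2, n / 2], ![-2, (-δ + ρ) / 2, 2, 2],
    ![-2, (-δ - ρ) / 2, c + σ - 2, c - σ - 2], ?_, ?_⟩
  · constructor
    · intro i
      fin_cases i <;> simp <;> linarith
    · simp [Fin.sum_univ_four]; linarith
    · intro i
      fin_cases i
      · simp
      · simp only [abs_le]; constructor <;> simp <;> linarith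
      · simp
      · simp
    · intro i
      fin_cases i
      · simp
      · simp only [abs_le]; constructor <;> simp <;> linarith
      · simp only [abs_le]; constructor <;> simp <;> linarith
      · simp only [abs_le]; constructor <;> simp <;> linarith
    · simp [Fin.sum_univ_four, chi4]
      linear_combination e2
    · simp [Fin.sum_univ_four, chi5]
      linear_combination g5 + 2 * e2 - 3 * e1 - (m / 4) * hρ2
    · simp [Fin.sum_univ_four, chi10]
      linear_combination -g5 - 2 * e2 + e3 + 2 * e1 + (m / 4) * hρ2 + n * hσ2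
    · simp [Fin.sum_univ_four, chi14]
      linear_combination -(3 * δ + 13) / 5 * g5 - 3 / 5 * g6 + 3 * e3 - 10 * e2 + 6 * e1 +
        3 * n * hσ2 - (m / 4) * ((δ ^ 2 - ρ ^ 2) / 4 + (7 * δ - 8) / 5 + 3) * hρ2
    · simp [Fin.sum_univ_four, chi16]
      linear_combination 2 * e3 - 4 * e2 + 2 * n * hσ2 + (δ * m / 4) * hρ2 - δ * g5 - g6
  · have k0 : (![-2, (-δ + ρ) / 2, 2, 2] : Fin 4 → ℝ) 0 +
        (![-2, (-δ - ρ) / 2, c + σ - 2, c - σ - 2] : Fin 4 → ℝ) 0 < -δ := by
      simp; linarith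
    have k1 : ¬ (![-2, (-δ + ρ) / 2, 2, 2] : Fin 4 → ℝ) 1 +
        (![-2, (-δ - ρ) / 2, c + σ - 2, c - σ - 2] : Fin 4 → ℝ) 1 < -δ := by
      simp; linarith
    have k2 : ¬ (![-2, (-δ + ρ) / 2, 2, 2] : Fin 4 → ℝ) 2 +
        (![-2, (-δ - ρ) / 2, c + σ - 2, c - σ - 2] : Fin 4 → ℝ) 2 < -δ := by
      simp; linarith
    have k3 : ¬ (![-2, (-δ + ρ) / 2, 2, 2] : Fin 4 → ℝ) 3 +
        (![-2, (-δ - ρ) / 2, c + σ - 2, c - σ - 2] : Fin 4 → ℝ) 3 < -δ := by
      simp; linarith
    rw [Finset.sum_filter, Fin.sum_univ_four, if_pos k0, if_neg k1, if_neg k2, if_neg k3]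
    simp [farBound, hf]

end proof

/-- **The bounds and their optimality.** -/
theorem result :
    (∀ (ι : Type) (P : ℕ → Finset ι) (x y : ι → ℝ), KnownMeans P x y → Bounds P x y) ∧
    Optimal ∧ OptimalFar :=
  ⟨fun _ _ _ _ K => bounds K, optimal, optimal_far⟩

end Pool.Agent.Results.MP_6dc561_nt.SignsOfTracesH24
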